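import Pool.Agent.H20.GKKEx

open Pool.Agent.H20.GKK

namespace Pool.Agent.Results.MP_25f4f2_al.Unstable

theorem result : ∃ (n : ℕ) (A : Matrix (Fin n) (Fin n) ℂ), 1 ≤ n ∧
    IsStrictGKK A ∧ IsTau A ∧ ∃ z ∈ spectrum ℂ A, z.re ≤ 0 := by
  refine ⟨5, mat 5 Z5, by norm_num, gkk5, tau5, ?_⟩
  by_contra h
  exact unstable5 fun z hz => not_le.mp fun e => h ⟨z, hz, e⟩

end Pool.Agent.Results.MP_25f4f2_al.Unstable
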